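import Pool.Agent.helper51.VF.SpecC

/-!
# Project VF, module RSP: powers of a regular sequence
-/

set_option autoImplicit false

universe u

open Pool.Agent.PC Pool.Agent.QS

namespace Pool.Agent.VF

lemma RSP_one {L : Type u} [CommRing L] (q0 q1 : L) (h : ∀ x, q0 ∣ q1 * x → q0 ∣ x) (M : ℕ) :
    ∀ x, q0 ∣ q1 ^ M * x → q0 ∣ x := by
  induction M with
  | zero => intro x hx; simpa using hx
  | succ M ih =>
    intro x hx
    rw [pow_succ, mul_assoc] at hx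
    exact h x (ih _ hx)

lemma RSP_pow {L : Type u} [CommRing L] [IsDomain L] (q0 q1 : L) (h0 : q0 ≠ 0)
    (h : ∀ x, q0 ∣ q1 * x → q0 ∣ x) (M n : ℕ) : ∀ x, q0 ^ n ∣ q1 ^ M * x → q0 ^ n ∣ x := by
  induction n with
  | zero => intro x _; simp
  | succ n ih =>
    intro x hx
    have h1 : q0 ∣ q1 ^ M * x := (Dvd.intro_left (q0 ^ n) (pow_succ q0 n).symm).trans hx
    obtain ⟨y, rfl⟩ := RSP_one q0 q1 h M x h1
    obtain ⟨z, hz⟩ := hx
    have h2 : q0 * (q1 ^ M * y) = q0 * (q0 ^ n * z) := by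
      rw [pow_succ] at hz
      linear_combination hz
    have h3 := mul_left_cancel₀ h0 h2
    obtain ⟨w, hw⟩ := ih y ⟨z, h3⟩
    exact ⟨w, by rw [hw, pow_succ]; ring⟩

lemma RSP_base {L : Type u} [CommRing L] (q0 q1 q2 : L)
    (h : ∀ x, q0 ∣ q1 * x → q0 ∣ x)
    (h2 : ∀ x, q2 * x ∈ Ideal.span {q0, q1} → x ∈ Ideal.span {q0, q1}) (b : ℕ) :
    ∀ x, (∃ u v, q2 * x = u * q0 + v * q1 ^ (b + 1)) → ∃ u v, x = u * q0 + v * q1 ^ (b + 1) := by
  induction b with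
  | zero =>
    rintro x ⟨u, v, e⟩
    have h3 := h2 x (Ideal.mem_span_pair.mpr ⟨u, v, by rw [e]; ring⟩)
    obtain ⟨a, c, hac⟩ := Ideal.mem_span_pair.mp h3
    exact ⟨a, c, by rw [← hac]; ring⟩
  | succ b ih =>
    rintro x ⟨u, v, e⟩
    have h3 := h2 x (Ideal.mem_span_pair.mpr ⟨u, v * q1 ^ (b + 1), by rw [e]; ring⟩)
    obtain ⟨c, x', hx⟩ := Ideal.mem_span_pair.mp h3
    have h4 : q0 ∣ q1 * (q2 * x' - v * q1 ^ (b + 1)) :=
      ⟨u - q2 * c, by linear_combination e + q2 * hx⟩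
    obtain ⟨w, hw⟩ := h _ h4
    obtain ⟨u', v', h5⟩ := ih x' ⟨w, v, by linear_combination hw⟩
    exact ⟨c + u' * q1, v', by linear_combination -hx + q1 * h5⟩

lemma RSP_two {L : Type u} [CommRing L] [IsDomain L] (q0 q1 q2 : L) (h0 : q0 ≠ 0)
    (h : ∀ x, q0 ∣ q1 * x → q0 ∣ x)
    (h2 : ∀ x, q2 * x ∈ Ideal.span {q0, q1} → x ∈ Ideal.span {q0, q1}) (b a : ℕ) :
    ∀ x, (∃ u v, q2 * x = u * q0 ^ (a + 1) + v * q1 ^ (b + 1)) →
      ∃ u v, x = u * q0 ^ (a + 1) + v * q1 ^ (b + 1) := by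
  induction a with
  | zero =>
    rintro x ⟨u, v, e⟩
    obtain ⟨u', v', h3⟩ := RSP_base q0 q1 q2 h h2 b x ⟨u, v, by rw [e]; ring⟩
    exact ⟨u', v', by rw [h3]; ring⟩
  | succ a ih =>
    rintro x ⟨u, v, e⟩
    obtain ⟨x', c, h3⟩ := RSP_base q0 q1 q2 h h2 b x ⟨u * q0 ^ (a + 1), v, by rw [e]; ring⟩
    have h4 : q0 ∣ q1 ^ (b + 1) * (v - q2 * c) :=
      ⟨q2 * x' - u * q0 ^ (a + 1), by linear_combination -e + q2 * h3⟩
    obtain ⟨w, hw⟩ := RSP_one q0 q1 h (b + 1) _ h4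
    have h5 : q0 * (q2 * x') = q0 * (u * q0 ^ (a + 1) + w * q1 ^ (b + 1)) := by
      linear_combination e - q2 * h3 + q1 ^ (b + 1) * hw
    have h6 := mul_left_cancel₀ h0 h5
    obtain ⟨u', v', h7⟩ := ih x' ⟨u, w, h6⟩
    exact ⟨u', c + v' * q0, by linear_combination h3 + q0 * h7⟩

theorem RSP : RSP_stmt.{u} := by
  intro L _ _ q0 q1 q2 N h0 h h2
  refine ⟨RSP_pow q0 q1 h0 h N N, ?_⟩
  rcases N with _ | N
  · intro x _
    have h3 : Ideal.span {q0 ^ 0, q1 ^ 0} = (⊤ : Ideal L) := by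
      rw [Ideal.eq_top_iff_one]
      exact Ideal.subset_span (by simp)
    rw [h3]
    trivial
  · have hM : ∀ M : ℕ, ∀ x, q2 ^ M * x ∈ Ideal.span {q0 ^ (N + 1), q1 ^ (N + 1)} →
        x ∈ Ideal.span {q0 ^ (N + 1), q1 ^ (N + 1)} := by
      intro M
      induction M with
      | zero => intro x hx; simpa using hx
      | succ M ih =>
        intro x hx
        rw [pow_succ q2 M, mul_assoc] at hx
        obtain ⟨u, v, e⟩ := Ideal.mem_span_pair.mp (ih _ hx)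
        obtain ⟨u', v', h7⟩ := RSP_two q0 q1 q2 h0 h h2 N N x ⟨u, v, e.symm⟩
        exact Ideal.mem_span_pair.mpr ⟨u', v', h7.symm⟩
    exact hM (N + 1)

end Pool.Agent.VF
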